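import Pool.Agent.Q163.LP.Sqrt

/-!
# `√k/k!` is a multiplier sequence
-/

namespace Pool.Agent.Results.MP_21a1fd_an.SqrtIsMultiplier

open Polynomial
open Pool.Agent.Helper771.MultSeq Pool.Agent.Q163.LP

/-- all zeros of `p` in `ℂ` are real -/
def RealZeros (p : ℝ[X]) : Prop := ∀ z : ℂ, aeval z p = 0 → z.im = 0

/-- the polynomial `∑ γ_k a_k x^k` for `p = ∑ a_k x^k` -/
noncomputable def mult (γ : ℕ → ℝ) (p : ℝ[X]) : ℝ[X] := p.sum fun k a => monomial k (γ k * a)

/-- For every non-constant real polynomial `p = ∑ a_k x^k` with only real zeros, all zeros of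
`∑ (√k/k!) a_k x^k` are real (and for constant `p` this polynomial is `0`). -/
theorem result :
    (∀ p : ℝ[X], 0 < p.natDegree → RealZeros p →
      RealZeros (mult (fun k => √(k : ℝ) / (k.factorial : ℝ)) p)) ∧
    (∀ p : ℝ[X], p.natDegree = 0 → mult (fun k => √(k : ℝ) / (k.factorial : ℝ)) p = 0) := by
  constructor
  · intro p hd hp
    have h1 := ms_sqrt p (Or.inr hp)
    rcases h1 with h | h
    · exfalso
      have h2 := congrArg (fun r => coeff r p.natDegree) h
      simp only [act_eq, coeff_zero] at h2
      rcases mul_eq_zero.1 h2 with h3 | h3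
      · have h4 : (0 : ℝ) < (p.natDegree : ℝ) := by exact_mod_cast hd
        have : 0 < √(p.natDegree : ℝ) / (p.natDegree.factorial : ℝ) :=
          div_pos (Real.sqrt_pos.2 h4) (by positivity)
        linarith
      · have h5 : p.leadingCoeff = 0 := h3
        rw [leadingCoeff_eq_zero] at h5
        rw [h5] at hd
        simp at hd
    · exact h
  · intro p hd
    rw [eq_C_of_natDegree_eq_zero hd]
    unfold mult
    rw [sum_C_index] <;> simp

end Pool.Agent.Results.MP_21a1fd_an.SqrtIsMultiplier
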